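import Pool.Agent.helper52.IR.Spec

/-!
# Row ir:NET (MP_07c750_an): a finite net of small boxes meets every orbit
-/

open scoped MatrixGroups ContDiff Topology UpperHalfPlane ComplexConjugate
open UpperHalfPlane MeasureTheory Filter Set

set_option autoImplicit false

namespace Pool.Agent.IR

open Pool.Agent.RS

theorem NET_ent (i j : Fin 2) : Continuous (fun D : SL(2, ℝ) => D.1 i j) :=
  (Matrix.SpecialLinearGroup.isClosedEmbedding_val (n := Fin 2) (R := ℝ)).continuous.matrix_elem i j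

/-- a neighbourhood of `1` -/
def NET_V (b : ℝ) : Set SL(2, ℝ) :=
  {D | 0 < D.1 0 0 ∧ |D.1 1 0 / D.1 0 0| < b ∧ |2 * Real.log (D.1 0 0)| < b ∧ |D.1 0 1 / D.1 0 0| < b}

theorem NET_nhds (b : ℝ) (hb : 0 < b) : NET_V b ∈ 𝓝 (1 : SL(2, ℝ)) := by
  have e00 : (1 : SL(2, ℝ)).1 0 0 = 1 := by simp
  have e01 : (1 : SL(2, ℝ)).1 0 1 = 0 := by simp
  have e10 : (1 : SL(2, ℝ)).1 1 0 = 0 := by simp
  have c00 := (NET_ent 0 0).continuousAt (x := (1 : SL(2, ℝ)))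
  have c01 := (NET_ent 0 1).continuousAt (x := (1 : SL(2, ℝ)))
  have c10 := (NET_ent 1 0).continuousAt (x := (1 : SL(2, ℝ)))
  have h0 : ∀ᶠ D : SL(2, ℝ) in 𝓝 1, 0 < D.1 0 0 := by
    refine continuousAt_const.eventually_lt c00 ?_
    rw [e00]
    exact one_pos
  have h1 : ∀ᶠ D : SL(2, ℝ) in 𝓝 1, |D.1 1 0 / D.1 0 0| < b := by
    refine ContinuousAt.eventually_lt ((c10.div c00 (by rw [e00]; exact one_ne_zero)).abs) continuousAt_const ?_
    rw [e10]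
    simpa using hb
  have h2 : ∀ᶠ D : SL(2, ℝ) in 𝓝 1, |2 * Real.log (D.1 0 0)| < b := by
    refine ContinuousAt.eventually_lt ((continuousAt_const.mul (c00.log (by rw [e00]; exact one_ne_zero))).abs) continuousAt_const ?_
    rw [e00]
    simpa using hb
  have h3 : ∀ᶠ D : SL(2, ℝ) in 𝓝 1, |D.1 0 1 / D.1 0 0| < b := by
    refine ContinuousAt.eventually_lt ((c01.div c00 (by rw [e00]; exact one_ne_zero)).abs) continuousAt_const ?_
    rw [e01]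
    simpa using hb
  filter_upwards [h0, h1, h2, h3] with D k0 k1 k2 k3
  exact ⟨k0, k1, k2, k3⟩

theorem NET_dec (b : ℝ) (D : SL(2, ℝ)) (hD : D ∈ NET_V b) : ∃ w τ x : ℝ, |w| ≤ b ∧ |τ| ≤ b ∧ |x| ≤ b ∧ D = lM w * aM τ * nM x := by
  obtain ⟨h0, h1, h2, h3⟩ := hD
  refine ⟨_, _, _, h1.le, h2.le, h3.le, ?_⟩
  have hdet : D.1 0 0 * D.1 1 1 - D.1 0 1 * D.1 1 0 = 1 := by
    have := D.2
    rwa [Matrix.det_fin_two] at this
  have he : Real.exp (2 * Real.log (D.1 0 0) / 2) = D.1 0 0 := by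
    rw [mul_div_cancel_left₀ _ (two_ne_zero), Real.exp_log h0]
  have he' : Real.exp (-(2 * Real.log (D.1 0 0) / 2)) = (D.1 0 0)⁻¹ := by
    rw [Real.exp_neg, he]
  apply Subtype.ext
  rw [Matrix.SpecialLinearGroup.coe_mul, Matrix.SpecialLinearGroup.coe_mul]
  show D.1 = !![1, 0; D.1 1 0 / D.1 0 0, 1] * !![Real.exp (2 * Real.log (D.1 0 0) / 2), 0; 0, Real.exp (-(2 * Real.log (D.1 0 0) / 2))] *
    !![1, D.1 0 1 / D.1 0 0; 0, 1]
  rw [he, he', Matrix.mul_fin_two, Matrix.mul_fin_two]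
  have hne := h0.ne'
  ext i j
  fin_cases i <;> fin_cases j
  · simp
  · simp
    field_simp
  · simp
    field_simp
  · simp
    field_simp
    linarith

theorem NET_proof (hDOB : QU.DOB_stmt) : NET_stmt := by
  have _ := hDOB
  intro Γ b hΓ hb
  obtain ⟨K, hK, hcov⟩ := hΓ.cocompact
  have hKG : IsCompact {g : SL(2, ℝ) | g • (I : ℍ) ∈ K} := isProperMap_smul_I.isCompact_preimage hK
  obtain ⟨Z, -, hZ⟩ := hKG.elim_nhds_subcover (fun y => {h : SL(2, ℝ) | y⁻¹ * h ∈ NET_V b}) (fun y _ => by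
    have h1 : Tendsto (fun h : SL(2, ℝ) => y⁻¹ * h) (𝓝 y) (𝓝 1) := by
      have h2 : Continuous (fun h : SL(2, ℝ) => y⁻¹ * h) := continuous_const.mul continuous_id
      have h3 := h2.tendsto y
      rwa [inv_mul_cancel] at h3
    exact h1 (NET_nhds b hb))
  refine ⟨Z, fun g => ?_⟩
  obtain ⟨γ, hγ⟩ := hcov (g • (I : ℍ))
  have h1 : (γ : SL(2, ℝ)) * g ∈ {g : SL(2, ℝ) | g • (I : ℍ) ∈ K} := by
    show ((γ : SL(2, ℝ)) * g) • (I : ℍ) ∈ K
    rw [mul_smul]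
    exact hγ
  have h2 := hZ h1
  rw [mem_iUnion₂] at h2
  obtain ⟨y, hy, h3⟩ := h2
  obtain ⟨w, τ, x, hw, hτ, hx, he⟩ := NET_dec b _ h3
  refine ⟨y, hy, γ, w, τ, x, hw, hτ, hx, ?_⟩
  calc (γ : SL(2, ℝ)) * g = y * (y⁻¹ * ((γ : SL(2, ℝ)) * g)) := (mul_inv_cancel_left _ _).symm
    _ = y * (lM w * aM τ * nM x) := by rw [he]
    _ = _ := by rw [← mul_assoc, ← mul_assoc]

end Pool.Agent.IR
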